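import Mathlib
import Pool.Agent.H964.DP.Stm

/-!
# Project DP of helper964, part GREEN (helper71)
-/

set_option autoImplicit false

open Finset Pool.Agent.H964.DP

namespace Pool.Agent.H71.DP

/-! ### the walk -/

theorem Pn_mono (n : ℕ) : ∀ (f g : V → ℝ), (∀ y, f y ≤ g y) → ∀ x, Pn n f x ≤ Pn n g x := by
  induction n with
  | zero => intro f g h x; exact h x
  | succ n ih =>
    intro f g h x
    show (∑ e : Fin 4, Pn n f (x + stp e)) / 4 ≤ (∑ e : Fin 4, Pn n g (x + stp e)) / 4
    have h1 : ∑ e : Fin 4, Pn n f (x + stp e) ≤ ∑ e : Fin 4, Pn n g (x + stp e) :=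
      sum_le_sum fun e _ => ih f g h _
    linarith

theorem Pn_add (n : ℕ) (f g : V → ℝ) : ∀ x, Pn n (fun y => f y + g y) x = Pn n f x + Pn n g x := by
  induction n with
  | zero => intro x; rfl
  | succ n ih =>
    intro x
    show (∑ e : Fin 4, Pn n (fun y => f y + g y) (x + stp e)) / 4 =
      (∑ e : Fin 4, Pn n f (x + stp e)) / 4 + (∑ e : Fin 4, Pn n g (x + stp e)) / 4
    rw [sum_congr rfl fun e _ => ih _, sum_add_distrib]
    ring

theorem Pn_mul (n : ℕ) (c : ℝ) (f : V → ℝ) : ∀ x, Pn n (fun y => c * f y) x = c * Pn n f x := by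
  induction n with
  | zero => intro x; rfl
  | succ n ih =>
    intro x
    show (∑ e : Fin 4, Pn n (fun y => c * f y) (x + stp e)) / 4 =
      c * ((∑ e : Fin 4, Pn n f (x + stp e)) / 4)
    rw [sum_congr rfl fun e _ => ih _, ← mul_sum]
    ring

theorem Pn_const (n : ℕ) (c : ℝ) : ∀ x, Pn n (fun _ => c) x = c := by
  induction n with
  | zero => intro x; rfl
  | succ n ih =>
    intro x
    show (∑ e : Fin 4, Pn n (fun _ => c) (x + stp e)) / 4 = c
    rw [sum_congr rfl fun e _ => ih _]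
    simp

theorem Pn_sum (n : ℕ) (s : Finset V) (a : V → ℝ) (g : V → V → ℝ) (x : V) :
    Pn n (fun y => ∑ d ∈ s, a d * g d y) x = ∑ d ∈ s, a d * Pn n (g d) x := by
  classical
  induction s using Finset.induction with
  | empty => simpa using Pn_const n 0 x
  | insert d s hd ih =>
    rw [sum_insert hd, ← ih, ← Pn_mul, ← Pn_add]
    congr 1
    funext y
    rw [sum_insert hd]

/-! ### sums over boxes -/

/-- the box -/
noncomputable def box (r : ℕ) : Finset V := Icc (-(r : ℤ)) r ×ˢ Icc (-(r : ℤ)) r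

theorem mem_box {r : ℕ} {y : V} : y ∈ box r ↔ |y.1| ≤ r ∧ |y.2| ≤ r := by
  unfold box
  rw [mem_product, mem_Icc, mem_Icc, abs_le, abs_le]

theorem card_box (r : ℕ) : (box r).card = (2 * r + 1) ^ 2 := by
  unfold box
  rw [card_product, Int.card_Icc]
  have h : ((r : ℤ) + 1 - -(r : ℤ)).toNat = 2 * r + 1 := by omega
  rw [h]
  ring

theorem ns_nonneg (y : V) : 0 ≤ ns y := by
  unfold ns
  positivity

theorem ns_ge {r : ℕ} {y : V} (h : y ∉ box r) : ((r : ℝ) + 1) ^ 2 ≤ ns y := by
  rw [mem_box, not_and_or] at h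
  have key : ∀ k : ℤ, ¬ |k| ≤ r → ((r : ℝ) + 1) ^ 2 ≤ (k : ℝ) ^ 2 := by
    intro k hk
    have h1 : (r : ℤ) + 1 ≤ |k| := by omega
    have h2 : (r : ℝ) + 1 ≤ |(k : ℝ)| := by exact_mod_cast h1
    rw [← sq_abs (k : ℝ)]
    exact pow_le_pow_left₀ (by positivity) h2 2
  unfold ns
  rcases h with h | h
  · have := key _ h
    nlinarith [sq_nonneg (y.2 : ℝ)]
  · have := key _ h
    nlinarith [sq_nonneg (y.1 : ℝ)]

theorem ns_le {r : ℕ} {y : V} (h : y ∈ box r) : ns y ≤ 2 * (r : ℝ) ^ 2 := by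
  rw [mem_box] at h
  have key : ∀ k : ℤ, |k| ≤ r → (k : ℝ) ^ 2 ≤ (r : ℝ) ^ 2 := by
    intro k hk
    have h2 : |(k : ℝ)| ≤ (r : ℝ) := by exact_mod_cast hk
    rw [← sq_abs (k : ℝ)]
    exact pow_le_pow_left₀ (abs_nonneg _) h2 2
  unfold ns
  have h1 := key _ h.1
  have h2 := key _ h.2
  linarith

theorem box_sum (r : ℕ) : ∑ y ∈ box r, 1 / (1 + ns y) ≤ 1 + 16 * Real.log (1 + r) := by
  induction r with
  | zero =>
    have h : box 0 = {((0 : ℤ), (0 : ℤ))} := by
      ext ⟨a, b⟩
      rw [mem_box, mem_singleton, Prod.mk.injEq]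
      simp
    rw [h, sum_singleton]
    unfold ns
    simp
  | succ r ih =>
    have hsub : box r ⊆ box (r + 1) := by
      intro y hy
      rw [mem_box] at hy ⊢
      push_cast
      omega
    rw [← sum_sdiff hsub]
    have h1 : ∀ y ∈ box (r + 1) \ box r, 1 / (1 + ns y) ≤ 1 / ((r : ℝ) + 1) ^ 2 := by
      intro y hy
      have h2 := ns_ge (mem_sdiff.1 hy).2
      exact one_div_le_one_div_of_le (by positivity) (by linarith)
    have h3 : ((box (r + 1) \ box r).card : ℝ) = 8 * ((r : ℝ) + 1) := by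
      rw [card_sdiff_of_subset hsub, card_box, card_box, Nat.cast_sub]
      · push_cast
        ring
      · exact Nat.pow_le_pow_left (by omega) 2
    have h4 : ∑ y ∈ box (r + 1) \ box r, 1 / (1 + ns y) ≤ 8 / ((r : ℝ) + 1) := by
      refine (sum_le_card_nsmul _ _ _ h1).trans (le_of_eq ?_)
      rw [nsmul_eq_mul, h3]
      field_simp
    have h5 : 1 / ((r : ℝ) + 2) ≤ Real.log (1 + ((r + 1 : ℕ) : ℝ)) - Real.log (1 + r) := by
      have h6 := Real.log_le_sub_one_of_pos (x := (1 + (r : ℝ)) / (1 + ((r + 1 : ℕ) : ℝ)))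
        (by positivity)
      rw [Real.log_div (by positivity) (by positivity)] at h6
      have h7 : (1 + (r : ℝ)) / (1 + ((r + 1 : ℕ) : ℝ)) - 1 = -(1 / ((r : ℝ) + 2)) := by
        push_cast
        field_simp
        ring
      rw [h7] at h6
      linarith
    have h8 : 8 / ((r : ℝ) + 1) ≤ 16 * (1 / ((r : ℝ) + 2)) := by
      rw [mul_one_div, div_le_div_iff₀ (by positivity) (by positivity)]
      have : (0 : ℝ) ≤ r := Nat.cast_nonneg r
      linarith
    linarith

theorem log_nn (t : ℝ) (ht : 0 ≤ t) : 0 ≤ Real.log (1 + t) := Real.log_nonneg (by linarith)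

theorem log_ns {r : ℕ} {y : V} (h : y ∈ box r) :
    1 + Real.log (1 + ns y) ≤ 3 * (1 + Real.log (1 + r)) := by
  have h1 := ns_le h
  have h2 := ns_nonneg y
  have h3 : (0 : ℝ) ≤ r := Nat.cast_nonneg r
  have h4 : Real.log (1 + ns y) ≤ Real.log (2 * (1 + (r : ℝ)) ^ 2) :=
    Real.log_le_log (by linarith) (by nlinarith)
  rw [Real.log_mul (by norm_num) (by positivity), Real.log_pow] at h4
  have h5 := Real.log_two_lt_d9
  have h6 := log_nn r h3
  push_cast at h4
  linarith

theorem C_nonneg {h : V → ℝ} {C : ℝ} {A : ℕ} (hLB : LB h C A) : 0 ≤ C := by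
  have h1 := hLB 0
  have h2 : ns 0 = 0 := by
    unfold ns
    simp
  rw [h2] at h1
  simp only [add_zero, Real.log_one, one_pow, mul_one, div_one] at h1
  exact (abs_nonneg _).trans h1

/-- the sum of `|h|` over a box -/
theorem box_h {h : V → ℝ} {C : ℝ} {A : ℕ} (hLB : LB h C A) (r : ℕ) :
    ∑ y ∈ box r, |h y| ≤ C * 3 ^ A * 16 * (1 + Real.log (1 + r)) ^ (A + 1) := by
  have hC := C_nonneg hLB
  have hl := log_nn r (Nat.cast_nonneg r)
  have h1 : ∀ y ∈ box r, |h y| ≤ C * (3 * (1 + Real.log (1 + r))) ^ A * (1 / (1 + ns y)) := by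
    intro y hy
    have h2 := hLB y
    have h3 := ns_nonneg y
    refine h2.trans ?_
    rw [div_eq_mul_one_div]
    have h4 : (1 + Real.log (1 + ns y)) ^ A ≤ (3 * (1 + Real.log (1 + r))) ^ A :=
      pow_le_pow_left₀ (by have := log_nn _ h3; linarith) (log_ns hy) A
    have h5 : 0 ≤ 1 / (1 + ns y) := by positivity
    exact mul_le_mul_of_nonneg_right (mul_le_mul_of_nonneg_left h4 hC) h5
  refine (sum_le_sum h1).trans ?_
  rw [← mul_sum]
  have h6 := box_sum r
  have h7 : 1 + 16 * Real.log (1 + r) ≤ 16 * (1 + Real.log (1 + r)) := by linarith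
  have h8 : 0 ≤ C * (3 * (1 + Real.log (1 + r))) ^ A := by positivity
  calc C * (3 * (1 + Real.log (1 + r))) ^ A * ∑ y ∈ box r, 1 / (1 + ns y)
      ≤ C * (3 * (1 + Real.log (1 + r))) ^ A * (16 * (1 + Real.log (1 + r))) :=
        mul_le_mul_of_nonneg_left (h6.trans h7) h8
    _ = C * 3 ^ A * 16 * (1 + Real.log (1 + r)) ^ (A + 1) := by
        rw [mul_pow, pow_succ]
        ring

/-- the decay of the bound -/
theorem far {A n : ℕ} {t : ℝ} (ht : (n : ℝ) ≤ t) :
    (1 + Real.log (1 + t)) ^ A / (1 + t) ≤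
      Real.exp 1 * (A.factorial : ℝ) * ((1 + Real.log (1 + n)) ^ A / (1 + n)) := by
  have hn : (0 : ℝ) ≤ n := Nat.cast_nonneg n
  have ht0 : 0 ≤ t := hn.trans ht
  have hln := log_nn n hn
  set u : ℝ := (1 + t) / (1 + n) with hu
  have hu1 : 1 ≤ u := by
    rw [hu, le_div_iff₀ (by positivity)]
    linarith
  have hlu : 0 ≤ Real.log u := Real.log_nonneg hu1
  have h1 : Real.log (1 + t) = Real.log (1 + n) + Real.log u := by
    rw [← Real.log_mul (by positivity) (by positivity), hu]
    congr 1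
    field_simp
  have h2 : 1 + Real.log (1 + t) ≤ (1 + Real.log (1 + n)) * (1 + Real.log u) := by
    rw [h1]
    nlinarith [mul_nonneg hln hlu]
  have h3 : (1 + Real.log u) ^ A ≤ Real.exp 1 * (A.factorial : ℝ) * u := by
    have h4 := Real.pow_div_factorial_le_exp (1 + Real.log u) (by linarith) A
    rw [Real.exp_add, Real.exp_log (by linarith), div_le_iff₀ (by positivity)] at h4
    linarith
  have h5 : (1 + Real.log (1 + t)) ^ A ≤
      (1 + Real.log (1 + n)) ^ A * (Real.exp 1 * (A.factorial : ℝ) * u) := by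
    have h6 : 0 ≤ 1 + Real.log (1 + t) := by
      have := log_nn t ht0
      linarith
    calc (1 + Real.log (1 + t)) ^ A ≤ ((1 + Real.log (1 + n)) * (1 + Real.log u)) ^ A :=
          pow_le_pow_left₀ h6 h2 A
      _ = (1 + Real.log (1 + n)) ^ A * (1 + Real.log u) ^ A := mul_pow _ _ _
      _ ≤ _ := mul_le_mul_of_nonneg_left h3 (by positivity)
  rw [div_le_iff₀ (by positivity)]
  refine h5.trans (le_of_eq ?_)
  rw [hu]
  field_simp

theorem t_GREEN : S_GREEN := by
  intro hL h C A hLB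
  have hC := C_nonneg hLB
  have hA1 : 0 ≤ C * 3 ^ A * 16 := by positivity
  have hA2 : 0 ≤ C * (Real.exp 1 * (A.factorial : ℝ)) := by positivity
  refine ⟨4 * (C * 3 ^ A * 16) + C * (Real.exp 1 * (A.factorial : ℝ)) + 1, by positivity,
    fun n x z => ?_, fun r F hF => ?_⟩
  · have hn : (0 : ℝ) ≤ n := Nat.cast_nonneg n
    have hln := log_nn n hn
    set c : ℝ := C * (Real.exp 1 * (A.factorial : ℝ) * ((1 + Real.log (1 + n)) ^ A / (1 + n)))
      with hc
    have hc0 : 0 ≤ c := by positivity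
    have h1 : ∀ y, |h (y - z)| ≤
        (∑ d ∈ box n, |h d| * (if y = d + z then (1 : ℝ) else 0)) + c := by
      intro y
      have h0 : ∀ d ∈ box n, 0 ≤ |h d| * (if y = d + z then (1 : ℝ) else 0) := by
        intro d _
        split_ifs
        · rw [mul_one]
          exact abs_nonneg _
        · rw [mul_zero]
      by_cases hy : y - z ∈ box n
      · have h2 := single_le_sum h0 hy
        rw [if_pos (by abel), mul_one] at h2
        linarith
      · have h3 := ns_ge hy
        have h4 : (n : ℝ) ≤ ns (y - z) := by nlinarith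
        have h5 := hLB (y - z)
        have h6 := far (A := A) h4
        have h7 : C * (1 + Real.log (1 + ns (y - z))) ^ A / (1 + ns (y - z)) ≤ c := by
          rw [mul_div_assoc, hc]
          exact mul_le_mul_of_nonneg_left h6 hC
        have h8 := sum_nonneg h0
        linarith
    have h2 := Pn_mono n _ _ h1 x
    rw [Pn_add, Pn_const, Pn_sum] at h2
    have h3 : ∑ d ∈ box n, |h d| * Pn n (fun y => if y = d + z then (1 : ℝ) else 0) x ≤
        (∑ d ∈ box n, |h d|) * (4 / (n + 1)) := by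
      rw [sum_mul]
      exact sum_le_sum fun d _ => mul_le_mul_of_nonneg_left (hL n x (d + z)) (abs_nonneg _)
    have h4 := box_h hLB n
    have h5 : (∑ d ∈ box n, |h d|) * (4 / (n + 1)) ≤
        C * 3 ^ A * 16 * (1 + Real.log (1 + n)) ^ (A + 1) * (4 / (n + 1)) :=
      mul_le_mul_of_nonneg_right h4 (by positivity)
    have h6 : c ≤ C * (Real.exp 1 * (A.factorial : ℝ)) *
        (1 + Real.log (1 + n)) ^ (A + 1) / (n + 1) := by
      rw [hc, ← mul_assoc, mul_div_assoc, add_comm (n : ℝ) 1]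
      refine mul_le_mul_of_nonneg_left ?_ hA2
      refine div_le_div_of_nonneg_right ?_ (by positivity)
      exact pow_le_pow_right₀ (by linarith) (Nat.le_succ A)
    have h7 : 0 ≤ (1 + Real.log (1 + (n : ℝ))) ^ (A + 1) / (n + 1) := by positivity
    calc Pn n (fun y => |h (y - z)|) x
        ≤ C * 3 ^ A * 16 * (1 + Real.log (1 + n)) ^ (A + 1) * (4 / (n + 1)) +
          C * (Real.exp 1 * (A.factorial : ℝ)) *
            (1 + Real.log (1 + n)) ^ (A + 1) / (n + 1) := by linarith
      _ ≤ (4 * (C * 3 ^ A * 16) + C * (Real.exp 1 * (A.factorial : ℝ)) + 1) *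
          (1 + Real.log (1 + n)) ^ (A + 1) / (n + 1) := by
          have h8 : (4 * (C * 3 ^ A * 16) + C * (Real.exp 1 * (A.factorial : ℝ)) + 1) *
              (1 + Real.log (1 + n)) ^ (A + 1) / (n + 1) =
              C * 3 ^ A * 16 * (1 + Real.log (1 + n)) ^ (A + 1) * (4 / (n + 1)) +
              C * (Real.exp 1 * (A.factorial : ℝ)) *
                (1 + Real.log (1 + n)) ^ (A + 1) / (n + 1) +
              (1 + Real.log (1 + (n : ℝ))) ^ (A + 1) / (n + 1) := by ring
          rw [h8]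
          linarith
  · have hF' : F ⊆ box r := fun y hy => mem_box.2 (hF y hy)
    have h1 := sum_le_sum_of_subset_of_nonneg hF' (fun y _ _ => abs_nonneg (h y))
    have h2 := box_h hLB r
    have hlr := log_nn r (Nat.cast_nonneg r)
    have h3 : 0 ≤ (1 + Real.log (1 + (r : ℝ))) ^ (A + 1) := by positivity
    refine (h1.trans h2).trans (mul_le_mul_of_nonneg_right ?_ h3)
    linarith

end Pool.Agent.H71.DP
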